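import Pool.Agent.H613T.LinCov7

/-!
# Linear covering codes of radius `r` and density `O(r log r)` at all lengths

The definitions are those of the frozen statements (`Pool.Prelude.Def_F_7905cbea`):
`minDensity n r` is the least value of `|V| |B(n,r)| / 2^n` over the linear subspaces `V` of `F_2^n`
with `V + B(n,r) = F_2^n`, `f_all r` is its limsup and `f r` its liminf as `n → ∞`.

Proof. (1) *Base code.* For a uniformly random choice of `m` columns in `F_2^M` the sums over two
different `r`-sets of columns are independent, so by Cauchy-Schwarz some choice misses at most the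
proportion `1/(1 + C(m,r)/2^M)` of `F_2^M`. Passing to the quotient by a well chosen line squares the
proportion of missed elements; after `j` steps, `2^j log(1 + C(m,r)/2^M) > M log 2`, nothing is
missed. This gives `m` columns in a space of `2^c` elements, `C(m,r)/2^c` about `c log 2`, such that
every element is the sum of exactly `r` of them. (2) *Lifting.* Over `F = F_(2^J)`, `2^J ≥ m`,
replace the column `a_i` by the columns `(a_i, x, β_i x, ..., β_i^(r-1) x)`, `x ∈ F`, the `β_i` being
distinct: the Vandermonde determinant shows that again every element is the sum of exactly `r`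
columns, and `(number of columns)^r / (number of elements)` does not change. (3) With `m` of order
`r²` all lengths are reached up to a factor `1 + 1/m` in the length.
-/

set_option autoImplicit false

namespace Pool.Agent.Results.MP_8b8ab9_co.AllLengths

open N8b55e67f Filter

/-- (1) For every `r ≥ 2`: every length `n ≥ 4 r^4` has a linear covering code of radius `r` and
density at most `80 r (1 + log r)`; so `f_all(r)` and `f(r)` are at most `80 r (1 + log r)`.
(2) For every `η > 0` and all large `r`, `f_all(r) ≤ (2 + η) r log r`. -/
theorem result :
    (∀ r : ℕ, 2 ≤ r →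
      (∀ n : ℕ, 4 * r ^ 4 ≤ n → minDensity n r ≤ ENNReal.ofReal (80 * r * (1 + Real.log r))) ∧
      f_all r ≤ ENNReal.ofReal (80 * r * (1 + Real.log r)) ∧
      f r ≤ ENNReal.ofReal (80 * r * (1 + Real.log r))) ∧
    (∀ η : ℝ, 0 < η → ∀ᶠ r : ℕ in atTop,
      f_all r ≤ ENNReal.ofReal ((2 + η) * (r * Real.log r))) := by
  refine ⟨fun r hr => ?_, fun η hη => ?_⟩
  · have h := Pool.Agent.H613T.LC.f_all_le r hr
    refine ⟨Pool.Agent.H613T.LC.density_large r hr, h, le_trans ?_ h⟩
    exact Filter.liminf_le_limsup (by isBoundedDefault) (by isBoundedDefault)
  · filter_upwards [Pool.Agent.H613T.LC.main η hη] with r h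
    exact h.2

end Pool.Agent.Results.MP_8b8ab9_co.AllLengths
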